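import Mathlib

namespace Pool.Agent.H10R2.SideChord

open Finset

/-- scalar product -/
def dot (f w : ℝ × ℝ) : ℝ := f.1 * w.1 + f.2 * w.2
/-- cross product -/
def cr (a b : ℝ × ℝ) : ℝ := a.1 * b.2 - a.2 * b.1

lemma dot_sub (f a b : ℝ × ℝ) : dot f (a - b) = dot f a - dot f b := by
  simp only [dot, Prod.fst_sub, Prod.snd_sub]; ring
lemma dot_add (f a b : ℝ × ℝ) : dot f (a + b) = dot f a + dot f b := by
  simp only [dot, Prod.fst_add, Prod.snd_add]; ring
lemma dot_smul (f a : ℝ × ℝ) (c : ℝ) : dot f (c • a) = c * dot f a := by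
  simp only [dot, Prod.smul_fst, Prod.smul_snd, smul_eq_mul]; ring
lemma dot_neg (f a : ℝ × ℝ) : dot f (-a) = - dot f a := by
  simp only [dot, Prod.fst_neg, Prod.snd_neg]; ring
lemma add_dot (f g a : ℝ × ℝ) : dot (f + g) a = dot f a + dot g a := by
  simp only [dot, Prod.fst_add, Prod.snd_add]; ring
lemma sub_dot (f g a : ℝ × ℝ) : dot (f - g) a = dot f a - dot g a := by
  simp only [dot, Prod.fst_sub, Prod.snd_sub]; ring
lemma smul_dot (f a : ℝ × ℝ) (c : ℝ) : dot (c • f) a = c * dot f a := by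
  simp only [dot, Prod.smul_fst, Prod.smul_snd, smul_eq_mul]; ring
lemma neg_dot (f a : ℝ × ℝ) : dot (-f) a = - dot f a := by
  simp only [dot, Prod.fst_neg, Prod.snd_neg]; ring
lemma cr_smul (a b : ℝ × ℝ) (c : ℝ) : cr a (c • b) = c * cr a b := by
  simp only [cr, Prod.smul_fst, Prod.smul_snd, smul_eq_mul]; ring
lemma smul_cr (a b : ℝ × ℝ) (c : ℝ) : cr (c • a) b = c * cr a b := by
  simp only [cr, Prod.smul_fst, Prod.smul_snd, smul_eq_mul]; ring

lemma continuous_dot (w : ℝ × ℝ) : Continuous (fun f : ℝ × ℝ => dot f w) := by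
  unfold dot; fun_prop

variable {m : ℕ}

/-- width of the point set `v` in the direction of the functional `f` -/
noncomputable def W (v : Fin (m + 1) → ℝ × ℝ) (f : ℝ × ℝ) : ℝ :=
  (univ : Finset (Fin (m + 1) × Fin (m + 1))).sup' ⟨(0, 0), mem_univ _⟩
    (fun ij => dot f (v ij.1) - dot f (v ij.2))

lemma le_W (v : Fin (m + 1) → ℝ × ℝ) (f : ℝ × ℝ) (i j : Fin (m + 1)) :
    dot f (v i) - dot f (v j) ≤ W v f :=
  Finset.le_sup' (fun ij : Fin (m + 1) × Fin (m + 1) => dot f (v ij.1) - dot f (v ij.2))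
    (mem_univ (i, j))

lemma exists_W (v : Fin (m + 1) → ℝ × ℝ) (f : ℝ × ℝ) :
    ∃ p q, W v f = dot f (v p) - dot f (v q) := by
  obtain ⟨⟨p, q⟩, _, h⟩ := Finset.exists_mem_eq_sup'
    (s := (univ : Finset (Fin (m + 1) × Fin (m + 1)))) ⟨(0, 0), mem_univ _⟩
    (fun ij => dot f (v ij.1) - dot f (v ij.2))
  exact ⟨p, q, h⟩

lemma W_max {v : Fin (m + 1) → ℝ × ℝ} {f : ℝ × ℝ} {p q : Fin (m + 1)}
    (h : W v f = dot f (v p) - dot f (v q)) (i : Fin (m + 1)) : dot f (v i) ≤ dot f (v p) := by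
  have := le_W v f i q; linarith
lemma W_min {v : Fin (m + 1) → ℝ × ℝ} {f : ℝ × ℝ} {p q : Fin (m + 1)}
    (h : W v f = dot f (v p) - dot f (v q)) (i : Fin (m + 1)) : dot f (v q) ≤ dot f (v i) := by
  have := le_W v f p i; linarith

lemma abs_le_W (v : Fin (m + 1) → ℝ × ℝ) (f : ℝ × ℝ) (i j : Fin (m + 1)) :
    |dot f (v i) - dot f (v j)| ≤ W v f := by
  rw [abs_le]; constructor
  · have := le_W v f j i; linarith
  · exact le_W v f i j

lemma W_nonneg (v : Fin (m + 1) → ℝ × ℝ) (f : ℝ × ℝ) : 0 ≤ W v f := by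
  have := le_W v f 0 0; linarith

lemma W_smul (v : Fin (m + 1) → ℝ × ℝ) (f : ℝ × ℝ) (c : ℝ) : W v (c • f) = |c| * W v f := by
  apply le_antisymm
  · obtain ⟨p, q, h⟩ := exists_W v (c • f)
    rw [h, smul_dot, smul_dot, ← mul_sub]
    calc c * (dot f (v p) - dot f (v q)) ≤ |c * (dot f (v p) - dot f (v q))| := le_abs_self _
      _ = |c| * |dot f (v p) - dot f (v q)| := abs_mul _ _
      _ ≤ |c| * W v f := mul_le_mul_of_nonneg_left (abs_le_W v f p q) (abs_nonneg c)
  · obtain ⟨p, q, h⟩ := exists_W v f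
    rcases le_total 0 c with hc | hc
    · rw [abs_of_nonneg hc, h]
      have := le_W v (c • f) p q
      rw [smul_dot, smul_dot] at this; linarith
    · rw [abs_of_nonpos hc, h]
      have := le_W v (c • f) q p
      rw [smul_dot, smul_dot] at this; linarith

lemma W_neg (v : Fin (m + 1) → ℝ × ℝ) (f : ℝ × ℝ) : W v (-f) = W v f := by
  have := W_smul v f (-1)
  simpa using this

lemma continuous_W (v : Fin (m + 1) → ℝ × ℝ) : Continuous (W v) := by
  unfold W
  apply Continuous.finset_sup'_apply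
  intro ij _
  exact (continuous_dot _).sub (continuous_dot _)

/-- strict convexity (counterclockwise) -/
def SC (v : Fin (m + 1) → ℝ × ℝ) : Prop :=
  ∀ i j : Fin (m + 1), j ≠ i → j ≠ i + 1 → 0 < cr (v (i + 1) - v i) (v j - v i)

lemma two_le {v : Fin (m + 1) → ℝ × ℝ} (hm : 2 ≤ m) (i : Fin (m + 1)) :
    i + 1 ≠ i ∧ i + 1 + 1 ≠ i ∧ i + 1 + 1 ≠ i + 1 := by
  have h1 : ((1 : Fin (m + 1)) : ℕ) = 1 := by
    rw [Fin.val_one']; exact Nat.mod_eq_of_lt (by omega)
  have h2 : (1 : Fin (m + 1)) ≠ 0 := by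
    intro h; have := congrArg Fin.val h; rw [h1] at this; simp at this
  have h3 : (1 : Fin (m + 1)) + 1 ≠ 0 := by
    intro h; have := congrArg Fin.val h
    rw [Fin.val_add, h1] at this
    rw [Nat.mod_eq_of_lt (by omega)] at this; simp at this
  refine ⟨?_, ?_, ?_⟩
  · intro h; exact h2 (by simpa using h)
  · intro h; rw [add_assoc] at h; exact h3 (by simpa using h)
  · intro h; exact h2 (by simpa using h)

end Pool.Agent.H10R2.SideChord
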