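import Pool.Agent.H10R2.SideChord

namespace Pool.Agent.H10R2.SideChord

open Finset
open scoped Fin.NatCast

variable {m : ℕ}

lemma sum_rot {M : Type*} [AddCommMonoid M] (h : Fin (m + 1) → M) (q : Fin (m + 1)) :
    ∑ i, h i = ∑ k ∈ range (m + 1), h (q + (k : Fin (m + 1))) := by
  rw [Finset.sum_range (fun k : ℕ => h (q + (k : Fin (m + 1))))]
  rw [← Equiv.sum_comp (Equiv.addLeft q) h]
  apply Finset.sum_congr rfl
  intro i _
  simp

lemma idx (p q : Fin (m + 1)) : q + (((p - q : Fin (m + 1)) : ℕ) : Fin (m + 1)) = p := by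
  simp

lemma idx_full (q : Fin (m + 1)) : q + ((m + 1 : ℕ) : Fin (m + 1)) = q := by
  simp

lemma idx_succ (q : Fin (m + 1)) (k : ℕ) :
    q + ((k + 1 : ℕ) : Fin (m + 1)) = q + (k : Fin (m + 1)) + 1 := by
  push_cast; rw [add_assoc]

/-- splitting a sum over all edges in the two arcs `q → p`, `p → q` -/
lemma sum_split {M : Type*} [AddCommMonoid M] (h : Fin (m + 1) → M) (p q : Fin (m + 1)) :
    ∑ i, h i = ∑ k ∈ range ((p - q : Fin (m + 1)) : ℕ), h (q + (k : Fin (m + 1)))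
      + ∑ k ∈ Ico ((p - q : Fin (m + 1)) : ℕ) (m + 1), h (q + (k : Fin (m + 1))) := by
  rw [sum_rot h q, Finset.sum_range_add_sum_Ico _ (by have := (p - q).isLt; omega)]

lemma tele_up {M : Type*} [AddCommGroup M] (V : Fin (m + 1) → M) (p q : Fin (m + 1)) :
    ∑ k ∈ range ((p - q : Fin (m + 1)) : ℕ), (V (q + (k : Fin (m + 1)) + 1) - V (q + (k : Fin (m + 1))))
      = V p - V q := by
  have := Finset.sum_range_sub (fun k : ℕ => V (q + (k : Fin (m + 1)))) ((p - q : Fin (m + 1)) : ℕ)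
  simp only [idx_succ, idx] at this
  simpa using this

lemma tele_down {M : Type*} [AddCommGroup M] (V : Fin (m + 1) → M) (p q : Fin (m + 1)) :
    ∑ k ∈ Ico ((p - q : Fin (m + 1)) : ℕ) (m + 1),
      (V (q + (k : Fin (m + 1)) + 1) - V (q + (k : Fin (m + 1)))) = V q - V p := by
  have hlt := (p - q).isLt
  have h := Finset.sum_Ico_sub (fun k : ℕ => V (q + (k : Fin (m + 1)))) hlt.le
  simp only [idx_succ, idx] at h
  rw [h]
  simp [add_assoc, Fin.last_add_one]

lemma path_ineq (F : Fin (m + 1) → ℝ) (p q : Fin (m + 1)) :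
    2 * (F p - F q) ≤ ∑ i, |F (i + 1) - F i| := by
  rw [sum_split _ p q]
  have h1 : F p - F q ≤ ∑ k ∈ range ((p - q : Fin (m + 1)) : ℕ),
      |F (q + (k : Fin (m + 1)) + 1) - F (q + (k : Fin (m + 1)))| := by
    rw [← tele_up F p q]
    exact Finset.sum_le_sum (fun k _ => le_abs_self _)
  have h2 : F p - F q ≤ ∑ k ∈ Ico ((p - q : Fin (m + 1)) : ℕ) (m + 1),
      |F (q + (k : Fin (m + 1)) + 1) - F (q + (k : Fin (m + 1)))| := by
    have : F p - F q = ∑ k ∈ Ico ((p - q : Fin (m + 1)) : ℕ) (m + 1),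
      -(F (q + (k : Fin (m + 1)) + 1) - F (q + (k : Fin (m + 1)))) := by
      rw [Finset.sum_neg_distrib, tele_down F p q]; ring
    rw [this]
    exact Finset.sum_le_sum (fun k _ => neg_le_abs _)
  linarith

/-- equality in `path_ineq` : `F` is monotone on the two arcs. -/
lemma path_eq {F : Fin (m + 1) → ℝ} {p q : Fin (m + 1)}
    (h : ∑ i, |F (i + 1) - F i| = 2 * (F p - F q)) :
    (∀ k < ((p - q : Fin (m + 1)) : ℕ), 0 ≤ F (q + (k : Fin (m + 1)) + 1) - F (q + (k : Fin (m + 1)))) ∧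
    (∀ k < m + 1, ((p - q : Fin (m + 1)) : ℕ) ≤ k →
      F (q + (k : Fin (m + 1)) + 1) - F (q + (k : Fin (m + 1))) ≤ 0) := by
  rw [sum_split _ p q] at h
  have h1 : F p - F q ≤ ∑ k ∈ range ((p - q : Fin (m + 1)) : ℕ),
      |F (q + (k : Fin (m + 1)) + 1) - F (q + (k : Fin (m + 1)))| := by
    rw [← tele_up F p q]
    exact Finset.sum_le_sum (fun k _ => le_abs_self _)
  have e2 : F p - F q = ∑ k ∈ Ico ((p - q : Fin (m + 1)) : ℕ) (m + 1),
      -(F (q + (k : Fin (m + 1)) + 1) - F (q + (k : Fin (m + 1)))) := by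
    rw [Finset.sum_neg_distrib, tele_down F p q]; ring
  have h2 : F p - F q ≤ ∑ k ∈ Ico ((p - q : Fin (m + 1)) : ℕ) (m + 1),
      |F (q + (k : Fin (m + 1)) + 1) - F (q + (k : Fin (m + 1)))| := by
    rw [e2]
    exact Finset.sum_le_sum (fun k _ => neg_le_abs _)
  have h3 : ∑ k ∈ range ((p - q : Fin (m + 1)) : ℕ),
      |F (q + (k : Fin (m + 1)) + 1) - F (q + (k : Fin (m + 1)))| = F p - F q := by linarith
  have h4 : ∑ k ∈ Ico ((p - q : Fin (m + 1)) : ℕ) (m + 1),
      |F (q + (k : Fin (m + 1)) + 1) - F (q + (k : Fin (m + 1)))| = F p - F q := by linarith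
  rw [← tele_up F p q] at h3
  rw [e2] at h4
  constructor
  · intro k hk
    have := (Finset.sum_eq_sum_iff_of_le (fun i _ => le_abs_self _)).1 h3.symm k (mem_range.2 hk)
    rw [this]; exact abs_nonneg _
  · intro k hk hk'
    have := (Finset.sum_eq_sum_iff_of_le (fun i _ => neg_le_abs _)).1 h4.symm k (mem_Ico.2 ⟨hk', hk⟩)
    have h5 := abs_nonneg (F (q + (k : Fin (m + 1)) + 1) - F (q + (k : Fin (m + 1))))
    linarith

lemma exists_idx (q i : Fin (m + 1)) : ∃ k < m + 1, q + (k : Fin (m + 1)) = i :=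
  ⟨((i - q : Fin (m + 1)) : ℕ), (i - q).isLt, idx i q⟩

/-- if no increment vanishes, a local maximum is the global one -/
lemma loc_max {F : Fin (m + 1) → ℝ} {p q : Fin (m + 1)}
    (h : ∑ i, |F (i + 1) - F i| = 2 * (F p - F q)) {i : Fin (m + 1)}
    (h1 : F i < F (i + 1)) (h2 : F (i + 1 + 1) < F (i + 1)) : i + 1 = p := by
  obtain ⟨hu, hd⟩ := path_eq h
  obtain ⟨k, hk, rfl⟩ := exists_idx q i
  have hk1 : k < ((p - q : Fin (m + 1)) : ℕ) := by
    by_contra hcon
    have := hd k hk (by omega)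
    linarith
  have hk2 : ¬ (k + 1 < ((p - q : Fin (m + 1)) : ℕ)) := by
    intro hcon
    have := hu (k + 1) hcon
    rw [idx_succ] at this
    linarith
  have hk3 : k + 1 = ((p - q : Fin (m + 1)) : ℕ) := by omega
  rw [← idx_succ, hk3, idx]

lemma loc_min {F : Fin (m + 1) → ℝ} {p q : Fin (m + 1)}
    (h : ∑ i, |F (i + 1) - F i| = 2 * (F p - F q)) {i : Fin (m + 1)}
    (h1 : F (i + 1) < F i) (h2 : F (i + 1) < F (i + 1 + 1)) : i + 1 = q := by
  apply loc_max (F := fun i => - F i) (p := q) (q := p) (i := i)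
  · have : ∀ i, |-F (i + 1) - -F i| = |F (i + 1) - F i| := by
      intro i; rw [← abs_neg]; congr 1; ring
    simp only [this]; rw [h]; ring
  · simpa using h1
  · simpa using h2

/-- signed sum of the edges -/
lemma sgn_sum {F : Fin (m + 1) → ℝ} {p q : Fin (m + 1)}
    (h : ∑ i, |F (i + 1) - F i| = 2 * (F p - F q)) (hne : ∀ i, F (i + 1) - F i ≠ 0)
    (V : Fin (m + 1) → ℝ × ℝ) (s : Fin (m + 1) → ℝ)
    (hs1 : ∀ i, 0 < F (i + 1) - F i → s i = 1) (hs2 : ∀ i, F (i + 1) - F i < 0 → s i = -1) :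
    ∑ i, s i • (V (i + 1) - V i) = (2 : ℝ) • (V p - V q) := by
  obtain ⟨hu, hd⟩ := path_eq h
  rw [sum_split _ p q]
  have e1 : ∑ k ∈ range ((p - q : Fin (m + 1)) : ℕ),
      s (q + (k : Fin (m + 1))) • (V (q + (k : Fin (m + 1)) + 1) - V (q + (k : Fin (m + 1)))) =
      V p - V q := by
    rw [← tele_up V p q]
    apply Finset.sum_congr rfl
    intro k hk
    have := hu k (mem_range.1 hk)
    rw [hs1 _ (lt_of_le_of_ne this (hne _).symm), one_smul]
  have e2 : ∑ k ∈ Ico ((p - q : Fin (m + 1)) : ℕ) (m + 1),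
      s (q + (k : Fin (m + 1))) • (V (q + (k : Fin (m + 1)) + 1) - V (q + (k : Fin (m + 1)))) =
      V p - V q := by
    have : V p - V q = ∑ k ∈ Ico ((p - q : Fin (m + 1)) : ℕ) (m + 1),
      -(V (q + (k : Fin (m + 1)) + 1) - V (q + (k : Fin (m + 1)))) := by
      rw [Finset.sum_neg_distrib, tele_down V p q]; abel
    rw [this]
    apply Finset.sum_congr rfl
    intro k hk
    have := hd k (mem_Ico.1 hk).2 (mem_Ico.1 hk).1
    rw [hs2 _ (lt_of_le_of_ne this (hne _)), neg_one_smul]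
  rw [e1, e2, two_smul]

/-- uniqueness of the maximum -/
lemma uniq_max {F : Fin (m + 1) → ℝ} {p q : Fin (m + 1)}
    (h : ∑ i, |F (i + 1) - F i| = 2 * (F p - F q)) (hne : ∀ i, F (i + 1) - F i ≠ 0)
    (hp : ∀ i, F i ≤ F p) {j : Fin (m + 1)} (hj : F j = F p) : j = p := by
  have h1 : F (j - 1) < F (j - 1 + 1) := by
    rw [sub_add_cancel, hj]
    apply lt_of_le_of_ne (hp _)
    have := hne (j - 1)
    rw [sub_add_cancel, hj] at this
    intro h0; apply this; rw [h0]; ring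
  have h2 : F (j - 1 + 1 + 1) < F (j - 1 + 1) := by
    rw [sub_add_cancel]
    rw [hj]
    apply lt_of_le_of_ne (hp _)
    have := hne j
    rw [hj] at this
    intro h0; apply this; rw [h0]; ring
  have := loc_max h h1 h2
  rwa [sub_add_cancel] at this

lemma uniq_min {F : Fin (m + 1) → ℝ} {p q : Fin (m + 1)}
    (h : ∑ i, |F (i + 1) - F i| = 2 * (F p - F q)) (hne : ∀ i, F (i + 1) - F i ≠ 0)
    (hq : ∀ i, F q ≤ F i) {j : Fin (m + 1)} (hj : F j = F q) : j = q := by
  apply uniq_max (F := fun i => - F i) (p := q) (q := p) (j := j)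
  · have : ∀ i, |-F (i + 1) - -F i| = |F (i + 1) - F i| := by
      intro i; rw [← abs_neg]; congr 1; ring
    simp only [this]; rw [h]; ring
  · intro i h0; apply hne i; linarith
  · intro i; simpa using hq i
  · simpa using hj

end Pool.Agent.H10R2.SideChord
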