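import Pool.Agent.H10R2.SideChord2

namespace Pool.Agent.H10R2.SideChord

open Finset

variable {m : ℕ}

/-- the `i`-th edge -/
def E (v : Fin (m + 1) → ℝ × ℝ) (i : Fin (m + 1)) : ℝ × ℝ := v (i + 1) - v i

lemma dot_E (v : Fin (m + 1) → ℝ × ℝ) (f : ℝ × ℝ) (i : Fin (m + 1)) :
    dot f (E v i) = dot f (v (i + 1)) - dot f (v i) := dot_sub _ _ _

lemma convex_le (f : ℝ × ℝ) (M : ℝ) : Convex ℝ {x : ℝ × ℝ | dot f x ≤ M} := by
  intro x hx y hy a b ha hb hab
  simp only [Set.mem_ofPred_eq] at *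
  rw [dot_add, dot_smul, dot_smul]
  have h1 := mul_le_mul_of_nonneg_left hx ha
  have h2 := mul_le_mul_of_nonneg_left hy hb
  have h3 : a * M + b * M = M := by rw [← add_mul, hab, one_mul]
  linarith

lemma hull_le {v : Fin (m + 1) → ℝ × ℝ} {f : ℝ × ℝ} {M : ℝ} (h : ∀ i, dot f (v i) ≤ M)
    {x : ℝ × ℝ} (hx : x ∈ convexHull ℝ (Set.range v)) : dot f x ≤ M := by
  have : convexHull ℝ (Set.range v) ⊆ {x : ℝ × ℝ | dot f x ≤ M} := by
    apply convexHull_min _ (convex_le f M)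
    rintro _ ⟨i, rfl⟩
    exact h i
  exact this hx

lemma hull_ge {v : Fin (m + 1) → ℝ × ℝ} {f : ℝ × ℝ} {M : ℝ} (h : ∀ i, M ≤ dot f (v i))
    {x : ℝ × ℝ} (hx : x ∈ convexHull ℝ (Set.range v)) : M ≤ dot f x := by
  have := hull_le (v := v) (f := -f) (M := -M) (fun i => by rw [neg_dot]; linarith [h i]) hx
  rw [neg_dot] at this; linarith

lemma hull_W {v : Fin (m + 1) → ℝ × ℝ} {f : ℝ × ℝ} {x y : ℝ × ℝ}
    (hx : x ∈ convexHull ℝ (Set.range v)) (hy : y ∈ convexHull ℝ (Set.range v)) :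
    dot f (y - x) ≤ W v f := by
  obtain ⟨p, q, h⟩ := exists_W v f
  rw [dot_sub]
  have h1 := hull_le (fun i => W_max h i) hy
  have h2 := hull_ge (fun i => W_min h i) hx
  linarith

lemma hull_absW {v : Fin (m + 1) → ℝ × ℝ} {f : ℝ × ℝ} {x y : ℝ × ℝ}
    (hx : x ∈ convexHull ℝ (Set.range v)) (hy : y ∈ convexHull ℝ (Set.range v)) :
    |dot f (y - x)| ≤ W v f := by
  rw [abs_le]; constructor
  · have := hull_W (f := f) hy hx
    rw [dot_sub] at *; linarith
  · exact hull_W hx hy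

/-- the chord hypothesis -/
def Chord (v : Fin (m + 1) → ℝ × ℝ) (N : Fin (m + 1) → ℝ) : Prop :=
  ∀ i, 0 < N i ∧ ∃ x ∈ convexHull ℝ (Set.range v), ∃ y ∈ convexHull ℝ (Set.range v), ∃ c : ℝ,
    y - x = c • E v i ∧ |c| * N i = 1

lemma N_ge {v : Fin (m + 1) → ℝ × ℝ} {N : Fin (m + 1) → ℝ} (hN : Chord v N) {f : ℝ × ℝ}
    (hf : W v f = 1) (i : Fin (m + 1)) : |dot f (E v i)| ≤ N i := by
  obtain ⟨hpos, x, hx, y, hy, c, hc, hcN⟩ := hN i
  have h := hull_absW (f := f) hx hy
  rw [hf, hc, dot_smul, abs_mul] at h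
  calc |dot f (E v i)| = |dot f (E v i)| * (|c| * N i) := by rw [hcN, mul_one]
    _ = (|c| * |dot f (E v i)|) * N i := by ring
    _ ≤ 1 * N i := mul_le_mul_of_nonneg_right h hpos.le
    _ = N i := one_mul _

lemma sum_abs_ge (v : Fin (m + 1) → ℝ × ℝ) (f : ℝ × ℝ) :
    2 * W v f ≤ ∑ i, |dot f (E v i)| := by
  obtain ⟨p, q, h⟩ := exists_W v f
  rw [h]
  have := path_ineq (fun i => dot f (v i)) p q
  simpa only [dot_E] using this

/-- A triple of functionals of width one with sum zero -/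
def Trip (v : Fin (m + 1) → ℝ × ℝ) (f g : ℝ × ℝ) : Prop :=
  W v f = 1 ∧ W v g = 1 ∧ W v (f + g) = 1

lemma half_sum_le {a b : ℝ} {M : ℝ} (h1 : |a| ≤ M) (h2 : |b| ≤ M) (h3 : |a + b| ≤ M) :
    (|a| + |b| + |a + b|) / 2 ≤ M := by
  rw [abs_le] at h1 h2 h3
  rcases abs_cases a with ⟨ha, ha'⟩ | ⟨ha, ha'⟩ <;> rcases abs_cases b with ⟨hb, hb'⟩ | ⟨hb, hb'⟩ <;>
    rcases abs_cases (a + b) with ⟨hc, hc'⟩ | ⟨hc, hc'⟩ <;> rw [ha, hb, hc] <;> linarith

lemma sum_N_ge {v : Fin (m + 1) → ℝ × ℝ} {N : Fin (m + 1) → ℝ} (hN : Chord v N) {f g : ℝ × ℝ}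
    (h : Trip v f g) : 3 ≤ ∑ i, N i := by
  have h1 := sum_abs_ge v f
  have h2 := sum_abs_ge v g
  have h3 := sum_abs_ge v (f + g)
  rw [h.1] at h1
  rw [h.2.1] at h2
  rw [h.2.2] at h3
  have h4 : ∑ i, (|dot f (E v i)| + |dot g (E v i)| + |dot (f + g) (E v i)|) / 2 ≤ ∑ i, N i := by
    apply Finset.sum_le_sum
    intro i _
    have := half_sum_le (N_ge hN h.1 i) (N_ge hN h.2.1 i)
      (by rw [← add_dot]; exact N_ge hN h.2.2 i)
    rwa [← add_dot] at this
  rw [← Finset.sum_div, Finset.sum_add_distrib, Finset.sum_add_distrib] at h4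
  linarith

/-- equality analysis for a triple -/
lemma trip_eq {v : Fin (m + 1) → ℝ × ℝ} {N : Fin (m + 1) → ℝ} (hN : Chord v N) {f g : ℝ × ℝ}
    (h : Trip v f g) (hS : ∑ i, N i = 3) :
    (∀ i, N i = (|dot f (E v i)| + |dot g (E v i)| + |dot (f + g) (E v i)|) / 2) ∧
    ∑ i, |dot f (E v i)| = 2 ∧ ∑ i, |dot g (E v i)| = 2 ∧ ∑ i, |dot (f + g) (E v i)| = 2 := by
  have h1 := sum_abs_ge v f
  have h2 := sum_abs_ge v g
  have h3 := sum_abs_ge v (f + g)
  rw [h.1] at h1
  rw [h.2.1] at h2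
  rw [h.2.2] at h3
  have h5 : ∀ i ∈ (univ : Finset (Fin (m + 1))),
      (|dot f (E v i)| + |dot g (E v i)| + |dot (f + g) (E v i)|) / 2 ≤ N i := by
    intro i _
    have := half_sum_le (N_ge hN h.1 i) (N_ge hN h.2.1 i)
      (by rw [← add_dot]; exact N_ge hN h.2.2 i)
    rwa [← add_dot] at this
  have h4 := Finset.sum_le_sum h5
  have h6 := h4
  rw [← Finset.sum_div, Finset.sum_add_distrib, Finset.sum_add_distrib] at h6
  have h7 : ∑ i, (|dot f (E v i)| + |dot g (E v i)| + |dot (f + g) (E v i)|) / 2 = ∑ i, N i := by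
    apply le_antisymm h4
    rw [← Finset.sum_div, Finset.sum_add_distrib, Finset.sum_add_distrib]
    linarith
  refine ⟨?_, by linarith, by linarith, by linarith⟩
  intro i
  exact ((Finset.sum_eq_sum_iff_of_le h5).1 h7 i (mem_univ i)).symm

lemma max_case {a b : ℝ} : (|a| + |b| + |a + b|) / 2 = |a| ∨ (|a| + |b| + |a + b|) / 2 = |b| ∨
    (|a| + |b| + |a + b|) / 2 = |a + b| := by
  rcases abs_cases a with ⟨ha, ha'⟩ | ⟨ha, ha'⟩ <;> rcases abs_cases b with ⟨hb, hb'⟩ | ⟨hb, hb'⟩ <;>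
    rcases abs_cases (a + b) with ⟨hc, hc'⟩ | ⟨hc, hc'⟩ <;> rw [ha, hb, hc] <;>
    first
    | (left; linarith)
    | (right; left; linarith)
    | (right; right; linarith)

lemma trip_case {v : Fin (m + 1) → ℝ × ℝ} {N : Fin (m + 1) → ℝ} (hN : Chord v N) {f g : ℝ × ℝ}
    (h : Trip v f g) (hS : ∑ i, N i = 3) (i : Fin (m + 1)) :
    N i = |dot f (E v i)| ∨ N i = |dot g (E v i)| ∨ N i = |dot (f + g) (E v i)| := by
  rw [(trip_eq hN h hS).1 i, add_dot]
  exact max_case

/-- generic functional -/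
def Gen (v : Fin (m + 1) → ℝ × ℝ) (f : ℝ × ℝ) : Prop := ∀ i, dot f (E v i) ≠ 0

/-- uniqueness of the maximiser on the hull -/
lemma hull_uniq {v : Fin (m + 1) → ℝ × ℝ} {f : ℝ × ℝ} {p : Fin (m + 1)}
    (h : ∀ i, i ≠ p → dot f (v i) < dot f (v p)) {x : ℝ × ℝ}
    (hx : x ∈ convexHull ℝ (Set.range v)) (hxf : dot f x = dot f (v p)) : x = v p := by
  have : convexHull ℝ (Set.range v) ⊆ {x : ℝ × ℝ | dot f x < dot f (v p) ∨ x = v p} := by
    apply convexHull_min
    · rintro _ ⟨i, rfl⟩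
      by_cases hi : i = p
      · right; rw [hi]
      · left; exact h i hi
    · intro x hx y hy a b ha hb hab
      simp only [Set.mem_ofPred_eq] at *
      rw [dot_add, dot_smul, dot_smul]
      have h3 : a * dot f (v p) + b * dot f (v p) = dot f (v p) := by rw [← add_mul, hab, one_mul]
      rcases hx with hx | rfl
      · rcases eq_or_lt_of_le ha with ha0 | ha0
        · have hb1 : b = 1 := by linarith
          rw [← ha0, hb1]
          simpa using hy
        · left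
          have hy' : dot f y ≤ dot f (v p) := by
            rcases hy with hy | rfl
            · exact hy.le
            · exact le_rfl
          have h1 := mul_lt_mul_of_pos_left hx ha0
          have h2 := mul_le_mul_of_nonneg_left hy' hb
          linarith
      · rcases hy with hy | rfl
        · rcases eq_or_lt_of_le hb with hb0 | hb0
          · right
            have ha1 : a = 1 := by linarith
            rw [← hb0, ha1]; simp
          · left
            have h1 := mul_lt_mul_of_pos_left hy hb0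
            linarith
        · right
          rw [← add_smul, hab, one_smul]
  rcases this hx with h1 | h1
  · exact absurd hxf h1.ne
  · exact h1

lemma gen_max {v : Fin (m + 1) → ℝ × ℝ} {f : ℝ × ℝ} (hg : Gen v f) (hW : W v f = 1)
    (hsum : ∑ i, |dot f (E v i)| = 2) {p q : Fin (m + 1)}
    (hpq : W v f = dot f (v p) - dot f (v q)) {j : Fin (m + 1)}
    (hj : dot f (v j) = dot f (v p)) : j = p := by
  apply uniq_max (F := fun i => dot f (v i)) (p := p) (q := q)
  · simp only [← dot_E, hsum, ← hpq, hW]; norm_num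
  · intro i; rw [← dot_E]; exact hg i
  · intro i; exact W_max hpq i
  · exact hj

lemma gen_min {v : Fin (m + 1) → ℝ × ℝ} {f : ℝ × ℝ} (hg : Gen v f) (hW : W v f = 1)
    (hsum : ∑ i, |dot f (E v i)| = 2) {p q : Fin (m + 1)}
    (hpq : W v f = dot f (v p) - dot f (v q)) {j : Fin (m + 1)}
    (hj : dot f (v j) = dot f (v q)) : j = q := by
  apply uniq_min (F := fun i => dot f (v i)) (p := p) (q := q)
  · simp only [← dot_E, hsum, ← hpq, hW]; norm_num
  · intro i; rw [← dot_E]; exact hg i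
  · intro i; exact W_min hpq i
  · exact hj

lemma face {v : Fin (m + 1) → ℝ × ℝ} {f : ℝ × ℝ} (hg : Gen v f) (hW : W v f = 1)
    (hsum : ∑ i, |dot f (E v i)| = 2) {p q : Fin (m + 1)}
    (hpq : W v f = dot f (v p) - dot f (v q)) {x y : ℝ × ℝ}
    (hx : x ∈ convexHull ℝ (Set.range v)) (hy : y ∈ convexHull ℝ (Set.range v))
    (h : dot f (y - x) = 1) : y = v p ∧ x = v q := by
  have h1 := hull_le (fun i => W_max hpq i) hy
  have h2 := hull_ge (fun i => W_min hpq i) hx
  rw [dot_sub] at h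
  rw [hW] at hpq
  constructor
  · apply hull_uniq (f := f) _ hy (by linarith)
    intro i hi
    apply lt_of_le_of_ne (W_max (by rw [hW]; exact hpq) i)
    intro h0
    exact hi (gen_max hg hW hsum (by rw [hW]; exact hpq) h0)
  · apply hull_uniq (f := -f) _ hx (by rw [neg_dot, neg_dot]; linarith)
    intro i hi
    rw [neg_dot, neg_dot]
    apply neg_lt_neg
    apply lt_of_le_of_ne (W_min (by rw [hW]; exact hpq) i)
    intro h0
    exact hi (gen_min hg hW hsum (by rw [hW]; exact hpq) h0.symm)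

lemma edge_dir {v : Fin (m + 1) → ℝ × ℝ} {N : Fin (m + 1) → ℝ} (hN : Chord v N) {f : ℝ × ℝ}
    (hg : Gen v f) (hW : W v f = 1)
    (hsum : ∑ i, |dot f (E v i)| = 2) {p q : Fin (m + 1)}
    (hpq : W v f = dot f (v p) - dot f (v q)) {i : Fin (m + 1)} (hi : N i = |dot f (E v i)|) :
    E v i = N i • (v p - v q) ∨ E v i = (- N i) • (v p - v q) := by
  obtain ⟨hpos, x, hx, y, hy, c, hc, hcN⟩ := hN i
  have hc0 : c ≠ 0 := by
    rintro rfl; simp at hcN
  have h1 : |dot f (y - x)| = 1 := by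
    rw [hc, dot_smul, abs_mul, ← hi, hcN]
  have key : c • E v i = v p - v q ∨ c • E v i = -(v p - v q) := by
    rcases (abs_eq zero_le_one).1 h1 with h2 | h2
    · left
      obtain ⟨rfl, rfl⟩ := face hg hW hsum hpq hx hy h2
      exact hc.symm
    · right
      have h3 : dot f (x - y) = 1 := by rw [dot_sub] at *; linarith
      obtain ⟨rfl, rfl⟩ := face hg hW hsum hpq hy hx h3
      rw [← hc]; abel
  have hcc : c = (N i)⁻¹ ∨ c = -(N i)⁻¹ := by
    have : |c| = (N i)⁻¹ := eq_inv_of_mul_eq_one_left hcN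
    rcases abs_choice c with h4 | h4
    · left; rw [← this, h4]
    · right; rw [← this, h4]; ring
  rcases hcc with hcc | hcc
  · have h5 : E v i = N i • (c • E v i) := by
      rw [hcc, smul_smul, mul_inv_cancel₀ hpos.ne', one_smul]
    rcases key with h6 | h6
    · left; rw [h5, h6]
    · right; rw [h5, h6, smul_neg, neg_smul]
  · have h5 : E v i = (- N i) • (c • E v i) := by
      rw [hcc, smul_smul]
      have : -N i * -(N i)⁻¹ = 1 := by field_simp
      rw [this, one_smul]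
    rcases key with h6 | h6
    · right; rw [h5, h6]
    · left; rw [h5, h6, smul_neg, neg_smul, neg_neg]

end Pool.Agent.H10R2.SideChord
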