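import Pool.Agent.H10R2.SideChord3

namespace Pool.Agent.H10R2.SideChord

open Finset

variable {m : ℕ}

lemma dot_zero_of {f a b : ℝ × ℝ} (hab : cr a b ≠ 0) (h1 : dot f a = 0) (h2 : dot f b = 0) :
    f = 0 := by
  unfold dot at h1 h2
  unfold cr at hab
  have e1 : f.1 * (a.1 * b.2 - a.2 * b.1) = 0 := by linear_combination b.2 * h1 - a.2 * h2
  have e2 : f.2 * (a.1 * b.2 - a.2 * b.1) = 0 := by linear_combination a.1 * h2 - b.1 * h1
  ext
  · simpa [hab] using e1
  · simpa [hab] using e2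

lemma W_pos {v : Fin (m + 1) → ℝ × ℝ} (hm : 2 ≤ m) (H : SC v) {f : ℝ × ℝ} (hf : f ≠ 0) :
    0 < W v f := by
  rcases eq_or_lt_of_le (W_nonneg v f) with h | h
  · exfalso
    apply hf
    obtain ⟨t1, t2, t3⟩ := two_le (v := v) hm 0
    have hc := H 0 (0 + 1 + 1) t2 t3
    apply dot_zero_of hc.ne'
    · have := abs_le_W v f (0 + 1) 0
      rw [← h] at this
      rw [dot_sub]; exact abs_eq_zero.1 (le_antisymm this (abs_nonneg _))
    · have := abs_le_W v f (0 + 1 + 1) 0
      rw [← h] at this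
      rw [dot_sub]; exact abs_eq_zero.1 (le_antisymm this (abs_nonneg _))
  · exact h

lemma E_ne {v : Fin (m + 1) → ℝ × ℝ} (hm : 2 ≤ m) (H : SC v) (i : Fin (m + 1)) : E v i ≠ 0 := by
  intro h0
  obtain ⟨t1, t2, t3⟩ := two_le (v := v) hm i
  have hc := H i (i + 1 + 1) t2 t3
  change 0 < cr (E v i) _ at hc
  rw [h0] at hc
  simp [cr] at hc

/-- rotation by a right angle -/
def J (a : ℝ × ℝ) : ℝ × ℝ := (-a.2, a.1)

lemma J_ne {a : ℝ × ℝ} (h : a ≠ 0) : J a ≠ 0 := by
  intro h0
  apply h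
  unfold J at h0
  have h1 := congrArg Prod.fst h0
  have h2 := congrArg Prod.snd h0
  ext <;> simp_all

lemma dot_J (a w : ℝ × ℝ) : dot (J a) w = cr a w := by
  simp only [dot, J, cr]; ring

lemma eq_smul_J {g a : ℝ × ℝ} (ha : a ≠ 0) (h : dot g a = 0) : ∃ κ : ℝ, g = κ • J a := by
  have hn : a.1 ^ 2 + a.2 ^ 2 ≠ 0 := by
    intro h0
    apply ha
    ext
    · have : a.1 ^ 2 = 0 := by nlinarith [sq_nonneg a.1, sq_nonneg a.2]
      simpa using this
    · have : a.2 ^ 2 = 0 := by nlinarith [sq_nonneg a.1, sq_nonneg a.2]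
      simpa using this
  refine ⟨(g.2 * a.1 - g.1 * a.2) / (a.1 ^ 2 + a.2 ^ 2), ?_⟩
  unfold dot at h
  ext
  · simp only [J, Prod.smul_mk, smul_eq_mul]
    field_simp
    linear_combination a.1 * h
  · simp only [J, Prod.smul_mk, smul_eq_mul]
    field_simp
    linear_combination a.2 * h

/-- existence of a partner -/
lemma exists_partner {v : Fin (m + 1) → ℝ × ℝ} (hm : 2 ≤ m) (H : SC v) {f : ℝ × ℝ}
    (hf : W v f = 1) : ∃ g, W v g = 1 ∧ W v (f + g) = 1 := by
  have hf0 : f ≠ 0 := by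
    rintro rfl
    have := W_smul v 0 0
    simp at this; rw [this] at hf; norm_num at hf
  set c : ℝ → ℝ × ℝ := fun θ => Real.cos θ • f + Real.sin θ • J f with hc
  have hcn : ∀ θ, c θ ≠ 0 := by
    intro θ h0
    have h1 : (Real.cos θ * f.1 - Real.sin θ * f.2) = 0 := by
      have := congrArg Prod.fst h0
      simpa [hc, J, sub_eq_add_neg] using this
    have h2 : (Real.cos θ * f.2 + Real.sin θ * f.1) = 0 := by
      have := congrArg Prod.snd h0
      simpa [hc, J] using this
    have h3 := Real.sin_sq_add_cos_sq θ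
    apply hf0
    ext
    · simp only [Prod.fst_zero]
      linear_combination Real.cos θ * h1 + Real.sin θ * h2 - f.1 * h3
    · simp only [Prod.snd_zero]
      linear_combination -Real.sin θ * h1 + Real.cos θ * h2 - f.2 * h3
  have hcc : Continuous c := by
    rw [hc]; fun_prop
  have hWc : ∀ θ, W v (c θ) ≠ 0 := fun θ => (W_pos hm H (hcn θ)).ne'
  set g : ℝ → ℝ × ℝ := fun θ => (W v (c θ))⁻¹ • c θ with hg
  have hgc : Continuous g := by
    rw [hg]
    exact (((continuous_W v).comp hcc).inv₀ hWc).smul hcc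
  have hWg : ∀ θ, W v (g θ) = 1 := by
    intro θ
    simp only [hg]
    rw [W_smul, abs_of_pos (inv_pos.2 (W_pos hm H (hcn θ))), inv_mul_cancel₀ (hWc θ)]
  have hφ : ContinuousOn (fun θ => W v (f + g θ)) (Set.Icc 0 Real.pi) :=
    ((continuous_W v).comp (continuous_const.add hgc)).continuousOn
  have h0 : W v (f + g 0) = 2 := by
    have e1 : c 0 = f := by simp [hc]
    have e2 : g 0 = f := by simp only [hg]; rw [e1, hf]; simp
    rw [e2, ← two_smul ℝ f, W_smul, hf]; norm_num
  have hπ : W v (f + g Real.pi) = 0 := by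
    have e1 : c Real.pi = -f := by simp [hc]
    have e2 : g Real.pi = -f := by simp only [hg]; rw [e1, W_neg, hf]; simp
    rw [e2, add_neg_cancel]
    have := W_smul v 0 0
    simpa using this
  have hiv := intermediate_value_Icc' Real.pi_pos.le hφ
  have hmem : (1 : ℝ) ∈ Set.Icc (W v (f + g Real.pi)) (W v (f + g 0)) := by
    rw [h0, hπ]; constructor <;> norm_num
  obtain ⟨θ, _, hθ⟩ := hiv hmem
  exact ⟨g θ, hWg θ, hθ⟩

/-- an infinite family of functionals of width one -/
lemma infinite_unit {v : Fin (m + 1) → ℝ × ℝ} (hm : 2 ≤ m) (H : SC v) :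
    {f : ℝ × ℝ | W v f = 1}.Infinite := by
  have hne : ∀ t : ℝ, ((1, t) : ℝ × ℝ) ≠ 0 := by
    intro t h; have := congrArg Prod.fst h; simp at this
  have hinj : Function.Injective (fun t : ℝ => (W v (1, t))⁻¹ • ((1, t) : ℝ × ℝ)) := by
    intro t s hts
    have h1 := congrArg Prod.fst hts
    have h2 := congrArg Prod.snd hts
    simp only [Prod.smul_mk, smul_eq_mul, mul_one] at h1 h2
    rw [h1] at h2
    have h3 : (W v (1, s))⁻¹ ≠ 0 := inv_ne_zero (W_pos hm H (hne s)).ne'
    exact mul_left_cancel₀ h3 h2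
  apply (Set.infinite_range_of_injective hinj).mono
  rintro _ ⟨t, rfl⟩
  have hp := W_pos hm H (hne t)
  change W v _ = 1
  rw [W_smul, abs_of_pos (inv_pos.2 hp), inv_mul_cancel₀ hp.ne']

/-- the bad functionals -/
def Bad (v : Fin (m + 1) → ℝ × ℝ) : Set (ℝ × ℝ) := {g | W v g = 1 ∧ ¬ Gen v g}

lemma bad_finite {v : Fin (m + 1) → ℝ × ℝ} (hm : 2 ≤ m) (H : SC v) : (Bad v).Finite := by
  have hfin : (Set.range (fun x : Fin (m + 1) × Bool =>
      (if x.2 then (W v (J (E v x.1)))⁻¹ else -(W v (J (E v x.1)))⁻¹) • J (E v x.1))).Finite :=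
    Set.finite_range _
  apply hfin.subset
  rintro g ⟨hg1, hg2⟩
  unfold Gen at hg2
  push Not at hg2
  obtain ⟨i, hi⟩ := hg2
  obtain ⟨κ, rfl⟩ := eq_smul_J (E_ne hm H i) hi
  rw [W_smul] at hg1
  have hk : |κ| = (W v (J (E v i)))⁻¹ := eq_inv_of_mul_eq_one_left hg1
  rcases abs_choice κ with h | h
  · refine ⟨(i, true), ?_⟩
    simp only [if_true]
    rw [← hk, h]
  · refine ⟨(i, false), ?_⟩
    simp only [Bool.false_eq_true, if_false]
    rw [← hk, h, neg_neg]

/-- the edges on the top face -/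
lemma top_face {v : Fin (m + 1) → ℝ × ℝ} (hm : 2 ≤ m) (H : SC v) {f g : ℝ × ℝ} (hg : g ≠ 0)
    {M L τ : ℝ} (hM : ∀ j, dot g (v j) ≤ M) {j0 : Fin (m + 1)} (hj0 : dot g (v j0) = M)
    (hL : ∀ j, dot g (v j) = M → L ≤ dot f (v j))
    (hU : ∀ j, dot g (v j) = M → dot f (v j) ≤ L + τ) :
    ∑ i ∈ univ.filter (fun i => dot g (E v i) = 0 ∧ dot g (v i) = M), |dot f (E v i)| ≤ τ ∧
    (∑ i ∈ univ.filter (fun i => dot g (E v i) = 0 ∧ dot g (v i) = M), |dot f (E v i)| = τ →
      ∃ j, dot g (v j) = M ∧ dot f (v j) = L) := by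
  have hτ : 0 ≤ τ := by have := hL j0 hj0; have := hU j0 hj0; linarith
  -- a top edge has all other vertices strictly below
  have htop : ∀ i, dot g (E v i) = 0 → dot g (v i) = M → ∀ j, j ≠ i → j ≠ i + 1 →
      dot g (v j) < M := by
    intro i hi hiM j hj1 hj2
    obtain ⟨κ, hκ⟩ := eq_smul_J (E_ne hm H i) hi
    have hval : ∀ j, dot g (v j) = M + κ * cr (E v i) (v j - v i) := by
      intro j
      have : dot g (v j - v i) = κ * cr (E v i) (v j - v i) := by
        rw [hκ, smul_dot, dot_J]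
      rw [dot_sub] at this; linarith
    obtain ⟨t1, t2, t3⟩ := two_le (v := v) hm i
    have hpos := H i (i + 1 + 1) t2 t3
    have hk : κ < 0 := by
      by_contra hcon
      push Not at hcon
      rcases eq_or_lt_of_le hcon with h0 | h0
      · apply hg; rw [hκ, ← h0, zero_smul]
      · have h1 := hM (i + 1 + 1)
        rw [hval] at h1
        have := mul_pos h0 hpos
        change 0 < κ * cr (E v i) _ at this
        linarith
    rw [hval]
    have := mul_neg_of_neg_of_pos hk (H i j hj1 hj2)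
    change κ * cr (E v i) _ < 0 at this
    linarith
  by_cases hex : ∃ i, dot g (E v i) = 0 ∧ dot g (v i) = M
  · obtain ⟨i, hi, hiM⟩ := hex
    have hi1 : dot g (v (i + 1)) = M := by rw [dot_E] at hi; linarith
    have hset : univ.filter (fun i => dot g (E v i) = 0 ∧ dot g (v i) = M) = {i} := by
      ext k
      simp only [mem_filter, mem_univ, true_and, mem_singleton]
      constructor
      · rintro ⟨hk, hkM⟩
        by_contra hki
        have h1 : k = i + 1 := by
          by_contra h2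
          exact absurd hkM (htop i hi hiM k hki h2).ne
        have hk1 : dot g (v (k + 1)) = M := by rw [dot_E] at hk; linarith
        obtain ⟨t1, t2, t3⟩ := two_le (v := v) hm i
        rw [h1] at hk1
        exact absurd hk1 (htop i hi hiM (i + 1 + 1) t2 t3).ne
      · rintro rfl; exact ⟨hi, hiM⟩
    rw [hset, sum_singleton, dot_E]
    have a1 := hL i hiM
    have a2 := hU i hiM
    have b1 := hL _ hi1
    have b2 := hU _ hi1
    constructor
    · rw [abs_le]; constructor <;> linarith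
    · intro h
      rcases abs_cases (dot f (v (i + 1)) - dot f (v i)) with ⟨h2, _⟩ | ⟨h2, _⟩
      · refine ⟨i, hiM, ?_⟩; rw [h2] at h; linarith
      · refine ⟨i + 1, hi1, ?_⟩; rw [h2] at h; linarith
  · have hset : univ.filter (fun i => dot g (E v i) = 0 ∧ dot g (v i) = M) = ∅ := by
      ext k
      simp only [mem_filter, mem_univ, true_and, notMem_empty, iff_false]
      intro hk; exact hex ⟨k, hk⟩
    rw [hset, sum_empty]
    refine ⟨hτ, ?_⟩
    intro h
    refine ⟨j0, hj0, ?_⟩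
    have := hL j0 hj0; have := hU j0 hj0; linarith

end Pool.Agent.H10R2.SideChord
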