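import Pool.Agent.H10R2.SideChord4

namespace Pool.Agent.H10R2.SideChord

open Finset

variable {m : ℕ}

/-- two generic functionals with the same data cannot both have a bad partner -/
lemma contra {v : Fin (m + 1) → ℝ × ℝ} (hm : 2 ≤ m) (H : SC v) {N : Fin (m + 1) → ℝ}
    (hN : Chord v N) (hS : ∑ i, N i = 3) {f f' g : ℝ × ℝ} {p q p' q' : Fin (m + 1)}
    (hff : f ≠ f') (hf : W v f = 1) (hfg : Gen v f) (hg : W v g = 1) (hfg1 : W v (f + g) = 1)
    (hfgg : Gen v (f + g)) (hf' : W v f' = 1) (hfg1' : W v (f' + g) = 1)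
    (e1 : W v f = dot f (v p) - dot f (v q)) (e2 : W v f' = dot f' (v p) - dot f' (v q))
    (e3 : W v (f + g) = dot (f + g) (v p') - dot (f + g) (v q'))
    (e4 : W v (f' + g) = dot (f' + g) (v p') - dot (f' + g) (v q')) : False := by
  have hT : Trip v f g := ⟨hf, hg, hfg1⟩
  obtain ⟨hNi, hs1, hs2, hs3⟩ := trip_eq hN hT hS
  have x1 : dot f (v p - v q) = 1 := by rw [dot_sub, ← e1, hf]
  have x2 : dot f' (v p - v q) = 1 := by rw [dot_sub, ← e2, hf']
  have x3 : dot (f + g) (v p' - v q') = 1 := by rw [dot_sub, ← e3, hfg1]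
  have x4 : dot (f' + g) (v p' - v q') = 1 := by rw [dot_sub, ← e4, hfg1']
  have d1 : dot (f - f') (v p - v q) = 0 := by rw [sub_dot, x1, x2, sub_self]
  have d2 : dot (f - f') (v p' - v q') = 0 := by
    rw [add_dot] at x3 x4
    rw [sub_dot]; linarith
  have hcr : cr (v p - v q) (v p' - v q') = 0 := by
    by_contra hcon
    exact hff (sub_eq_zero.1 (dot_zero_of hcon d1 d2))
  have hx' : v p' - v q' = dot f (v p' - v q') • (v p - v q) := by
    unfold cr at hcr
    unfold dot at x1 ⊢
    ext
    · simp only [Prod.smul_fst, smul_eq_mul]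
      linear_combination (-(v p' - v q').1) * x1 + f.2 * hcr * (-1)
    · simp only [Prod.smul_snd, smul_eq_mul]
      linear_combination (-(v p' - v q').2) * x1 + f.1 * hcr
  set l := dot f (v p' - v q') with hl
  have hl1 : |l| ≤ 1 := by rw [hl, dot_sub, ← hf]; exact abs_le_W v f p' q'
  have hgx : |dot g (v p - v q)| ≤ 1 := by rw [dot_sub, ← hg]; exact abs_le_W v g p q
  have hfgx : |dot (f + g) (v p - v q)| ≤ 1 := by
    rw [dot_sub, ← hfg1]; exact abs_le_W v (f + g) p q
  have h5 : l * dot (f + g) (v p - v q) = 1 := by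
    rw [← dot_smul, ← hx', x3]
  have h6 : dot (f + g) (v p - v q) = 1 + dot g (v p - v q) := by rw [add_dot, x1]
  have hl2 : l = 1 := by
    rcases abs_choice l with h7 | h7
    · -- l ≥ 0
      have hlpos : 0 ≤ l := by rw [← h7]; exact abs_nonneg _
      rw [abs_le] at hl1 hfgx
      nlinarith
    · exfalso
      have hlneg : l ≤ 0 := by
        have := abs_nonneg l
        linarith
      rw [abs_le] at hl1 hgx
      nlinarith
  have hgx0 : dot g (v p - v q) = 0 := by
    rw [hl2, h6] at h5; linarith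
  rw [hl2, one_smul] at hx'
  -- `p' = p`, `q' = q`
  have y1 : dot f (v p') - dot f (v q') = W v f := by
    rw [← dot_sub, hx', x1, hf]
  have y2 := W_max e1 p'
  have y3 := W_min e1 q'
  have hp : p' = p := gen_max hfg hf hs1 e1 (by linarith)
  have hq : q' = q := gen_min hfg hf hs1 e1 (by linarith)
  subst hp hq
  -- every edge is parallel to `x` or has `N i = |g e_i|`
  have hcase : ∀ i, dot g (E v i) = 0 ∨ N i = |dot g (E v i)| := by
    intro i
    rcases trip_case hN hT hS i with h | h | h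
    · left
      rcases edge_dir hN hfg hf hs1 e1 h with h' | h' <;>
        rw [h', dot_smul, hgx0, mul_zero]
    · right; exact h
    · left
      rcases edge_dir hN hfgg hfg1 hs3 e3 h with h' | h' <;>
        rw [h', dot_smul, hgx0, mul_zero]
  have hZ : ∑ i ∈ univ.filter (fun i => dot g (E v i) = 0), |dot f (E v i)| = 1 := by
    have a1 := Finset.sum_filter_add_sum_filter_not univ (fun i => dot g (E v i) = 0) N
    have a2 := Finset.sum_filter_add_sum_filter_not univ (fun i => dot g (E v i) = 0)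
      (fun i => |dot g (E v i)|)
    have a3 : ∑ i ∈ univ.filter (fun i => dot g (E v i) = 0), |dot g (E v i)| = 0 := by
      apply Finset.sum_eq_zero
      intro i hi
      rw [(mem_filter.1 hi).2, abs_zero]
    have a4 : ∑ i ∈ univ.filter (fun i => ¬ dot g (E v i) = 0), N i =
        ∑ i ∈ univ.filter (fun i => ¬ dot g (E v i) = 0), |dot g (E v i)| := by
      apply Finset.sum_congr rfl
      intro i hi
      rcases hcase i with h | h
      · exact absurd h (mem_filter.1 hi).2
      · exact h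
    have a5 : ∑ i ∈ univ.filter (fun i => dot g (E v i) = 0), N i =
        ∑ i ∈ univ.filter (fun i => dot g (E v i) = 0), |dot f (E v i)| := by
      apply Finset.sum_congr rfl
      intro i hi
      have := (mem_filter.1 hi).2
      rw [hNi i, add_dot, this, abs_zero, add_zero, add_zero]
      ring
    rw [hS, a4, a5] at a1
    rw [hs2, a3] at a2
    linarith
  obtain ⟨pg, qg, eg⟩ := exists_W v g
  have hg0 : g ≠ 0 := by
    rintro rfl
    have := W_smul v 0 0
    simp at this; rw [this] at hg; norm_num at hg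
  have hcc : dot g (v p') = dot g (v q') := by rw [dot_sub] at hgx0; linarith
  have m1 := W_max e1
  have m2 := W_min e1
  have m3 := W_max e3
  have m4 := W_min e3
  have m5 := W_max eg
  have m6 := W_min eg
  rw [hf] at e1
  rw [hg] at eg
  -- top
  obtain ⟨t1, t2⟩ := top_face hm H (f := f) hg0 (M := dot g (v pg)) (L := dot f (v q'))
    (τ := 1 - (dot g (v pg) - dot g (v p'))) m5 rfl
    (fun j _ => m2 j)
    (fun j hj => by
      have := m3 j
      rw [add_dot, add_dot] at this
      linarith)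
  obtain ⟨b1, b2⟩ := top_face hm H (f := -f) (neg_ne_zero.2 hg0) (M := -dot g (v qg))
    (L := -dot f (v p'))
    (τ := 1 - (dot g (v p') - dot g (v qg)))
    (fun j => by rw [neg_dot]; linarith [m6 j]) (j0 := qg) (by rw [neg_dot])
    (fun j _ => by rw [neg_dot]; linarith [m1 j])
    (fun j hj => by
      have := m4 j
      rw [neg_dot] at *
      rw [add_dot, add_dot] at this
      linarith)
  -- the zero edges split in top and bottom ones
  have hsplit : univ.filter (fun i => dot g (E v i) = 0) =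
      (univ.filter (fun i => dot g (E v i) = 0 ∧ dot g (v i) = dot g (v pg))) ∪
      (univ.filter (fun i => dot (-g) (E v i) = 0 ∧ dot (-g) (v i) = -dot g (v qg))) := by
    ext i
    simp only [mem_filter, mem_univ, true_and, mem_union, neg_dot, neg_eq_zero, neg_inj]
    constructor
    · intro hi
      obtain ⟨κ, hκ⟩ := eq_smul_J (E_ne hm H i) hi
      have hval : ∀ j, dot g (v j) = dot g (v i) + κ * cr (E v i) (v j - v i) := by
        intro j
        have : dot g (v j - v i) = κ * cr (E v i) (v j - v i) := by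
          conv_lhs => rw [hκ]
          rw [smul_dot, dot_J]
        rw [dot_sub] at this; linarith
      have hcrnn : ∀ j, 0 ≤ cr (E v i) (v j - v i) := by
        intro j
        by_cases hj1 : j = i
        · rw [hj1]; simp [cr]
        · by_cases hj2 : j = i + 1
          · rw [hj2]; simp only [E, cr]; apply le_of_eq; ring
          · exact (H i j hj1 hj2).le
      rcases le_total κ 0 with hk | hk
      · left
        refine ⟨hi, le_antisymm (m5 i) ?_⟩
        rw [hval pg]
        have := mul_nonpos_of_nonpos_of_nonneg hk (hcrnn pg)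
        linarith
      · right
        refine ⟨hi, le_antisymm ?_ (m6 i)⟩
        rw [hval qg]
        have := mul_nonneg hk (hcrnn qg)
        linarith
    · rintro (⟨h, _⟩ | ⟨h, _⟩) <;> exact h
  have hdisj : Disjoint
      (univ.filter (fun i => dot g (E v i) = 0 ∧ dot g (v i) = dot g (v pg)))
      (univ.filter (fun i => dot (-g) (E v i) = 0 ∧ dot (-g) (v i) = -dot g (v qg))) := by
    rw [Finset.disjoint_left]
    intro i h1 h2
    have k1 := (mem_filter.1 h1).2.2
    have k2 := (mem_filter.1 h2).2.2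
    rw [neg_dot] at k2
    linarith
  rw [hsplit, Finset.sum_union hdisj] at hZ
  have hneg : ∀ i, |dot (-f) (E v i)| = |dot f (E v i)| := by
    intro i; rw [neg_dot, abs_neg]
  simp only [hneg] at b1 b2
  obtain ⟨j, hj1, hj2⟩ := t2 (by linarith)
  obtain ⟨k, hk1, hk2⟩ := b2 (by linarith)
  have e1' : W v f = dot f (v p') - dot f (v q') := by rw [hf]; exact e1
  have hjq : j = q' := gen_min hfg hf hs1 e1' hj2
  have hkp : k = p' := by
    apply gen_max hfg hf hs1 e1'
    rw [neg_dot] at hk2; linarith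
  rw [hjq] at hj1
  rw [hkp, neg_dot] at hk1
  linarith

theorem exists_gen {v : Fin (m + 1) → ℝ × ℝ} (hm : 2 ≤ m) (H : SC v) {N : Fin (m + 1) → ℝ}
    (hN : Chord v N) (hS : ∑ i, N i = 3) :
    ∃ f g, Trip v f g ∧ Gen v f ∧ Gen v g ∧ Gen v (f + g) := by
  by_contra hno
  push Not at hno
  have claim1 : ∀ f, W v f = 1 → Gen v f → ∃ g, W v g = 1 ∧ ¬ Gen v g ∧ W v (f + g) = 1 := by
    intro f hf hgf
    obtain ⟨g, hg, hfg⟩ := exists_partner hm H hf
    by_cases hgg : Gen v g
    · refine ⟨-(f + g), by rw [W_neg]; exact hfg, ?_, ?_⟩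
      · intro h
        apply hno f g ⟨hf, hg, hfg⟩ hgf hgg
        intro i hi
        apply h i
        rw [neg_dot, hi, neg_zero]
      · have : f + -(f + g) = -g := by abel
        rw [this, W_neg]; exact hg
    · exact ⟨g, hg, hgg, hfg⟩
  have hB := bad_finite hm H
  set B2 : Set (ℝ × ℝ) := Bad v ∪ Set.image2 (fun a b => a - b) (Bad v) (Bad v) with hB2
  have hB2f : B2.Finite := hB.union (hB.image2 _ hB)
  have hX : ({f : ℝ × ℝ | W v f = 1} \ B2).Infinite := (infinite_unit hm H).sdiff hB2f
  have data : ∀ f ∈ ({f : ℝ × ℝ | W v f = 1} \ B2),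
      ∃ d : (ℝ × ℝ) × (Fin (m + 1) × Fin (m + 1)) × (Fin (m + 1) × Fin (m + 1)),
        d.1 ∈ Bad v ∧ Gen v f ∧ W v (f + d.1) = 1 ∧ Gen v (f + d.1) ∧
        W v f = dot f (v d.2.1.1) - dot f (v d.2.1.2) ∧
        W v (f + d.1) = dot (f + d.1) (v d.2.2.1) - dot (f + d.1) (v d.2.2.2) := by
    rintro f ⟨hf, hfB⟩
    change W v f = 1 at hf
    have hgf : Gen v f := by
      by_contra hcon
      exact hfB (Or.inl ⟨hf, hcon⟩)
    obtain ⟨g, hg, hgg, hfg⟩ := claim1 f hf hgf
    have hgen : Gen v (f + g) := by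
      by_contra hcon
      apply hfB
      right
      exact ⟨f + g, ⟨hfg, hcon⟩, g, ⟨hg, hgg⟩, by simp⟩
    obtain ⟨p, q, e1⟩ := exists_W v f
    obtain ⟨p', q', e2⟩ := exists_W v (f + g)
    exact ⟨(g, (p, q), (p', q')), ⟨hg, hgg⟩, hgf, hfg, hgen, e1, e2⟩
  choose! D hD using data
  obtain ⟨f, hfX, f', hfX', hne, hDD⟩ := hX.exists_ne_map_eq_of_mapsTo
    (t := Bad v ×ˢ (Set.univ : Set ((Fin (m + 1) × Fin (m + 1)) × (Fin (m + 1) × Fin (m + 1)))))
    (f := D) (fun f hf => ⟨(hD f hf).1, Set.mem_univ _⟩) (hB.prod Set.finite_univ)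
  obtain ⟨a1, a2, a3, a4, a5, a6⟩ := hD f hfX
  obtain ⟨b1, b2, b3, b4, b5, b6⟩ := hD f' hfX'
  rw [← hDD] at b1 b3 b4 b5 b6
  exact contra hm H hN hS hne hfX.1 a2 a1.1 a3 a4 hfX'.1 b3 a5 b5 a6 b6

end Pool.Agent.H10R2.SideChord
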