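import Pool.Agent.H10R2.SideChord5

namespace Pool.Agent.H10R2.SideChord

open Finset

variable {m : ℕ}

lemma cr_sub (a b c : ℝ × ℝ) : cr a (b - c) = cr a b - cr a c := by
  simp only [cr, Prod.fst_sub, Prod.snd_sub]; ring
lemma cr_add (a b c : ℝ × ℝ) : cr a (b + c) = cr a b + cr a c := by
  simp only [cr, Prod.fst_add, Prod.snd_add]; ring
lemma cr_self (a : ℝ × ℝ) : cr a a = 0 := by simp only [cr]; ring
lemma cr_anti (a b : ℝ × ℝ) : cr a b = - cr b a := by simp only [cr]; ring

lemma cr_E_succ {v : Fin (m + 1) → ℝ × ℝ} (hm : 2 ≤ m) (H : SC v) (i : Fin (m + 1)) :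
    0 < cr (E v i) (E v (i + 1)) := by
  obtain ⟨t1, t2, t3⟩ := two_le (v := v) hm i
  have hc := H i (i + 1 + 1) t2 t3
  change 0 < cr (E v i) _ at hc
  have : v (i + 1 + 1) - v i = E v (i + 1) + E v i := by simp [E]
  rw [this, cr_add, cr_self, add_zero] at hc
  exact hc

/-- all the data of a generic equality triple -/
structure Gtrip (v : Fin (m + 1) → ℝ × ℝ) (N : Fin (m + 1) → ℝ) (F : Fin 3 → ℝ × ℝ)
    (p q : Fin 3 → Fin (m + 1)) : Prop where
  sum0 : ∀ w, dot (F 0) w + dot (F 1) w + dot (F 2) w = 0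
  W1 : ∀ k, W v (F k) = 1
  gen : ∀ k, Gen v (F k)
  s2 : ∀ k, ∑ i, |dot (F k) (E v i)| = 2
  pq : ∀ k, W v (F k) = dot (F k) (v (p k)) - dot (F k) (v (q k))
  case : ∀ i, ∃ k, N i = |dot (F k) (E v i)|

lemma exists_gtrip {v : Fin (m + 1) → ℝ × ℝ} (hm : 2 ≤ m) (H : SC v) {N : Fin (m + 1) → ℝ}
    (hN : Chord v N) (hS : ∑ i, N i = 3) :
    ∃ (F : Fin 3 → ℝ × ℝ) (p q : Fin 3 → Fin (m + 1)), Gtrip v N F p q := by
  obtain ⟨f, g, hT, g1, g2, g3⟩ := exists_gen hm H hN hS
  obtain ⟨_, hs1, hs2, hs3⟩ := trip_eq hN hT hS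
  have hcase := trip_case hN hT hS
  let F : Fin 3 → ℝ × ℝ := ![f, g, -(f + g)]
  have hF0 : F 0 = f := rfl
  have hF1 : F 1 = g := rfl
  have hF2 : F 2 = -(f + g) := rfl
  choose p q hpq using fun k => exists_W v (F k)
  refine ⟨F, p, q, ?_, ?_, ?_, ?_, hpq, ?_⟩
  · intro w; rw [hF0, hF1, hF2, neg_dot, add_dot]; ring
  · intro k
    fin_cases k
    · exact hT.1
    · exact hT.2.1
    · change W v (-(f + g)) = 1
      rw [W_neg]; exact hT.2.2
  · intro k
    fin_cases k
    · exact g1
    · exact g2
    · intro i h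
      change dot (-(f + g)) (E v i) = 0 at h
      rw [neg_dot, neg_eq_zero] at h
      exact g3 i h
  · intro k
    fin_cases k
    · exact hs1
    · exact hs2
    · change ∑ i, |dot (-(f + g)) (E v i)| = 2
      simp only [neg_dot, abs_neg]
      exact hs3
  · intro i
    rcases hcase i with h | h | h
    · exact ⟨0, h⟩
    · exact ⟨1, h⟩
    · refine ⟨2, ?_⟩
      rw [hF2, neg_dot, abs_neg]; exact h

lemma fin3 (k : Fin 3) : k + 1 + 1 + 1 = k := by fin_cases k <;> rfl
lemma fin3' (k : Fin 3) : k + 1 + 1 = k + 2 := by fin_cases k <;> rfl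
lemma fin3_cases (k j : Fin 3) : j = k ∨ j = k + 1 ∨ j = k + 1 + 1 := by
  fin_cases k <;> fin_cases j <;> decide

lemma sum3 {F : Fin 3 → ℝ × ℝ} (h : ∀ w, dot (F 0) w + dot (F 1) w + dot (F 2) w = 0) (k : Fin 3)
    (w : ℝ × ℝ) : dot (F k) w + dot (F (k + 1)) w + dot (F (k + 1 + 1)) w = 0 := by
  have := h w
  fin_cases k
  · exact this
  · change dot (F 1) w + dot (F 2) w + dot (F 0) w = 0
    linarith
  · change dot (F 2) w + dot (F 0) w + dot (F 1) w = 0
    linarith

/-- directions: the shape of a polygon with equality -/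
lemma gtrip_dirs {v : Fin (m + 1) → ℝ × ℝ} (hm : 2 ≤ m) (H : SC v) {N : Fin (m + 1) → ℝ}
    (hN : Chord v N) (hS : ∑ i, N i = 3) {F : Fin 3 → ℝ × ℝ} {p q : Fin 3 → Fin (m + 1)}
    (G : Gtrip v N F p q) :
    ∃ (cls : Fin (m + 1) → Fin 3) (s : Fin (m + 1) → ℝ), (∀ i, s i = 1 ∨ s i = -1) ∧
      (∀ i, E v i = (s i * N i) • (v (p (cls i)) - v (q (cls i)))) ∧
      (∀ k, ∑ i ∈ univ.filter (fun i => cls i = k), N i = 1) ∧
      (v (p 0) - v (q 0)) + (v (p 1) - v (q 1)) + (v (p 2) - v (q 2)) = 0 := by
  choose cls hcls using G.case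
  set x : Fin 3 → ℝ × ℝ := fun k => v (p k) - v (q k) with hx
  have hdir : ∀ i, ∃ s : ℝ, (s = 1 ∨ s = -1) ∧ E v i = (s * N i) • x (cls i) := by
    intro i
    rcases edge_dir hN (G.gen _) (G.W1 _) (G.s2 _) (G.pq _) (hcls i) with h | h
    · exact ⟨1, Or.inl rfl, by rw [one_mul]; exact h⟩
    · exact ⟨-1, Or.inr rfl, by rw [neg_one_mul]; exact h⟩
  choose s hs1 hs2 using hdir
  refine ⟨cls, s, hs1, hs2, ?_⟩
  have hNpos : ∀ i, 0 < N i := fun i => (hN i).1
  have hxk : ∀ k, dot (F k) (x k) = 1 := by
    intro k; rw [hx]; simp only; rw [dot_sub, ← G.pq, G.W1]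
  have hsabs : ∀ i, |s i| = 1 := by
    intro i; rcases hs1 i with h | h <;> rw [h] <;> simp
  -- off-diagonal values are negative
  have hneg : ∀ i k, k ≠ cls i → dot (F k) (x (cls i)) < 0 := by
    have hle : ∀ i k, |dot (F k) (x (cls i))| ≤ 1 := by
      intro i k
      have h1 := N_ge hN (G.W1 k) i
      rw [hs2 i, dot_smul, abs_mul, abs_mul, hsabs, one_mul, abs_of_pos (hNpos i)] at h1
      have := hNpos i
      by_contra hcon
      push Not at hcon
      nlinarith
    have hne : ∀ i k, dot (F k) (x (cls i)) ≠ 0 := by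
      intro i k h0
      apply G.gen k i
      rw [hs2 i, dot_smul, h0, mul_zero]
    intro i k hk
    have h3 := sum3 G.sum0 (cls i) (x (cls i))
    rw [hxk] at h3
    have a1 := hle i (cls i + 1)
    have a2 := hle i (cls i + 1 + 1)
    rw [abs_le] at a1 a2
    rcases fin3_cases (cls i) k with h | h | h
    · exact absurd h hk
    · rw [h]
      apply lt_of_le_of_ne (by linarith) (hne _ _)
    · rw [h]
      apply lt_of_le_of_ne (by linarith) (hne _ _)
  -- signed sums
  set T : ℝ × ℝ := ∑ i, N i • x (cls i) with hT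
  set a : Fin 3 → ℝ := fun k => ∑ i ∈ univ.filter (fun i => cls i = k), N i with ha
  have hkey : ∀ k, (2 * a k - 2) • x k = T := by
    intro k
    have h1 := sgn_sum (F := fun i => dot (F k) (v i)) (p := p k) (q := q k)
      (by simp only [← dot_E, G.s2, ← G.pq, G.W1]; norm_num)
      (by intro i; rw [← dot_E]; exact G.gen k i) v
      (fun i => if cls i = k then s i else - s i)
      (by
        intro i hi
        rw [← dot_E, hs2 i, dot_smul] at hi
        have := hNpos i
        by_cases hc : cls i = k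
        · simp only [if_pos hc]
          rw [hc, hxk] at hi
          rcases hs1 i with h | h
          · exact h
          · rw [h] at hi; linarith
        · simp only [if_neg hc]
          have hn := hneg i k (fun h => hc h.symm)
          rcases hs1 i with h | h
          · exfalso
            rw [h] at hi
            nlinarith
          · rw [h]; norm_num)
      (by
        intro i hi
        rw [← dot_E, hs2 i, dot_smul] at hi
        have := hNpos i
        by_cases hc : cls i = k
        · simp only [if_pos hc]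
          rw [hc, hxk] at hi
          rcases hs1 i with h | h
          · rw [h] at hi; linarith
          · exact h
        · simp only [if_neg hc]
          have hn := hneg i k (fun h => hc h.symm)
          rcases hs1 i with h | h
          · rw [h]
          · exfalso
            rw [h] at hi
            nlinarith)
    have h2 : ∀ i, (if cls i = k then s i else - s i) • (v (i + 1) - v i) =
        (if cls i = k then (2 : ℝ) • N i • x k else 0) - N i • x (cls i) := by
      intro i
      change _ • E v i = _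
      rw [hs2 i, smul_smul]
      by_cases hc : cls i = k
      · rw [if_pos hc, if_pos hc, hc]
        have : s i * (s i * N i) = N i := by
          rcases hs1 i with h | h <;> rw [h] <;> ring
        rw [this, two_smul]; abel
      · simp only [if_neg hc]
        have : -s i * (s i * N i) = -N i := by
          rcases hs1 i with h | h <;> rw [h] <;> ring
        rw [this, neg_smul]; simp
    simp only [h2] at h1
    rw [Finset.sum_sub_distrib, ← Finset.sum_filter, ← Finset.smul_sum, ← Finset.sum_smul] at h1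
    change (2 : ℝ) • a k • x k - T = (2 : ℝ) • x k at h1
    rw [sub_smul, mul_smul, ← h1]; abel
  have hsum : a 0 + a 1 + a 2 = 3 := by
    have : ∑ k, a k = ∑ i, N i := by
      simp only [ha]
      exact Finset.sum_fiberwise _ _ _
    rw [Fin.sum_univ_three] at this
    rw [this, hS]
  have hx0 : ∀ k, x k ≠ 0 := by
    intro k h
    have := hxk k
    rw [h] at this
    simp [dot] at this
  have hT0 : T = 0 := by
    by_contra hT0
    have hpar : ∀ k, ∃ r : ℝ, x k = r • T := by
      intro k
      have hne : (2 * a k - 2) ≠ 0 := by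
        intro h0
        have := hkey k
        rw [h0, zero_smul] at this
        exact hT0 this.symm
      refine ⟨(2 * a k - 2)⁻¹, ?_⟩
      rw [← hkey k, smul_smul, inv_mul_cancel₀ hne, one_smul]
    have hc := cr_E_succ hm H 0
    obtain ⟨r1, h1⟩ := hpar (cls 0)
    obtain ⟨r2, h2⟩ := hpar (cls (0 + 1))
    rw [hs2, hs2 (0 + 1), h1, h2, smul_smul, smul_smul, smul_cr, cr_smul, cr_self] at hc
    simp at hc
  have ha1 : ∀ k, a k = 1 := by
    intro k
    have := hkey k
    rw [hT0, smul_eq_zero] at this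
    rcases this with h | h
    · linarith
    · exact absurd h (hx0 k)
  refine ⟨ha1, ?_⟩
  have hTT : T = ∑ k, a k • x k := by
    rw [hT]
    simp only [ha, Finset.sum_smul]
    rw [← Finset.sum_fiberwise (s := univ) (g := cls)]
    apply Finset.sum_congr rfl
    intro k _
    apply Finset.sum_congr rfl
    intro i hi
    rw [(mem_filter.1 hi).2]
  rw [hT0, Fin.sum_univ_three, ha1, ha1, ha1, one_smul, one_smul, one_smul] at hTT
  exact hTT.symm

end Pool.Agent.H10R2.SideChord
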