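import Pool.Agent.H10R2.SideChord6

namespace Pool.Agent.H10R2.SideChord

open Finset

variable {m : ℕ}

theorem shape {v : Fin (m + 1) → ℝ × ℝ} (hm : 2 ≤ m) (H : SC v) {N : Fin (m + 1) → ℝ}
    (hN : Chord v N) (hS : ∑ i, N i = 3) :
    ∃ A B C : ℝ × ℝ, AffineIndependent ℝ ![A, B, C] ∧
      ∃ t : ℝ, 0 ≤ t ∧ t ≤ 1 / 2 ∧
        convexHull ℝ (Set.range v) =
          convexHull ℝ ({A + t • (B - A), A + t • (C - A),
            B + t • (A - B), B + t • (C - B),
            C + t • (A - C), C + t • (B - C)} : Set (ℝ × ℝ)) := by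
  obtain ⟨F, p, q, G⟩ := exists_gtrip hm H hN hS
  obtain ⟨cls, s, hs1, hE, ha, hsum⟩ := gtrip_dirs hm H hN hS G
  have hNpos : ∀ i, 0 < N i := fun i => (hN i).1
  set x : Fin 3 → ℝ × ℝ := fun k => v (p k) - v (q k) with hx
  have hE' : ∀ i, E v i = (s i * N i) • x (cls i) := hE
  have hsabs : ∀ i, |s i| = 1 := by
    intro i; rcases hs1 i with h | h <;> rw [h] <;> simp
  have hxsum : x 0 + x 1 + x 2 = 0 := hsum
  set κ : ℝ := cr (x 0) (x 1) with hκ
  have hx2 : x 2 = -(x 0) - x 1 := by
    have : x 2 = (x 0 + x 1 + x 2) - x 0 - x 1 := by abel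
    rw [this, hxsum]; abel
  have hcyc : ∀ k, cr (x k) (x (k + 1)) = κ := by
    intro k
    fin_cases k
    · rfl
    · change cr (x 1) (x 2) = κ
      rw [hx2, hκ]; simp only [cr, Prod.fst_sub, Prod.snd_sub, Prod.fst_neg, Prod.snd_neg]; ring
    · change cr (x 2) (x 0) = κ
      rw [hx2, hκ]; simp only [cr, Prod.fst_sub, Prod.snd_sub, Prod.fst_neg, Prod.snd_neg]; ring
  have hκ0 : κ ≠ 0 := by
    intro h0
    have hc := cr_E_succ hm H 0
    have hall : ∀ j k, cr (x j) (x k) = 0 := by
      intro j k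
      rcases fin3_cases j k with h | h | h
      · rw [h, cr_self]
      · rw [h, hcyc, h0]
      · rw [h]
        have := hcyc (j + 1 + 1)
        rw [fin3] at this
        rw [cr_anti, this, h0, neg_zero]
    rw [hE', hE' (0 + 1), smul_cr, cr_smul, hall] at hc
    simp at hc
  -- the functionals `h k`
  set h : Fin 3 → (ℝ × ℝ) → ℝ := fun k u => cr (x k) u / κ with hh
  have h_add : ∀ k u w, h k (u + w) = h k u + h k w := by
    intro k u w; simp only [hh]; rw [cr_add, add_div]
  have h_sub : ∀ k u w, h k (u - w) = h k u - h k w := by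
    intro k u w; simp only [hh]; rw [cr_sub, sub_div]
  have h_smul : ∀ k (c : ℝ) u, h k (c • u) = c * h k u := by
    intro k c u; simp only [hh]; rw [cr_smul, mul_div_assoc]
  have h_self : ∀ k, h k (x k) = 0 := by
    intro k; simp only [hh]; rw [cr_self, zero_div]
  have h_succ : ∀ k, h k (x (k + 1)) = 1 := by
    intro k; simp only [hh]; rw [hcyc, div_self hκ0]
  have h_succ2 : ∀ k, h k (x (k + 1 + 1)) = -1 := by
    intro k; simp only [hh]
    have := hcyc (k + 1 + 1)
    rw [fin3] at this
    rw [cr_anti, this, neg_div, div_self hκ0]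
  have h_sum : ∀ k u, h k u + h (k + 1) u + h (k + 1 + 1) u = 0 := by
    intro k u
    have h3 : h 0 u + h 1 u + h 2 u = 0 := by
      simp only [hh]
      rw [← add_div, ← add_div, hx2]
      have : cr (x 0) u + cr (x 1) u + cr (-x 0 - x 1) u = 0 := by
        simp only [cr, Prod.fst_sub, Prod.snd_sub, Prod.fst_neg, Prod.snd_neg]; ring
      rw [this, zero_div]
    fin_cases k
    · exact h3
    · change h 1 u + h 2 u + h 0 u = 0
      linarith
    · change h 2 u + h 0 u + h 1 u = 0
      linarith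
  have h_ext : ∀ k u w, h k u = h k w → h (k + 1) u = h (k + 1) w → u = w := by
    intro k u w h1 h2
    simp only [hh] at h1 h2
    have e1 : cr (x k) u = cr (x k) w := by
      have := congrArg (fun z => z * κ) h1
      simpa [hκ0] using this
    have e2 : cr (x (k + 1)) u = cr (x (k + 1)) w := by
      have := congrArg (fun z => z * κ) h2
      simpa [hκ0] using this
    have e3 := hcyc k
    have e4 : κ * (u.1 - w.1) = 0 := by
      rw [← e3]
      simp only [cr] at *
      linear_combination (x (k + 1)).1 * e1 - (x k).1 * e2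
    have e5 : κ * (u.2 - w.2) = 0 := by
      rw [← e3]
      simp only [cr] at *
      linear_combination (x (k + 1)).2 * e1 - (x k).2 * e2
    ext
    · have := (mul_eq_zero.1 e4).resolve_left hκ0; linarith
    · have := (mul_eq_zero.1 e5).resolve_left hκ0; linarith
  -- width of `h k` is at most one
  have h_dot : ∀ k u, h k u = dot (κ⁻¹ • J (x k)) u := by
    intro k u
    rw [smul_dot, dot_J]; simp only [hh]; rw [div_eq_inv_mul]
  have h_W : ∀ k i j, h k (v i) - h k (v j) ≤ 1 := by
    intro k i j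
    have h1 := sum_abs_ge v (κ⁻¹ • J (x k))
    have h2 : ∑ i, |dot (κ⁻¹ • J (x k)) (E v i)| = 2 := by
      have h3 : ∀ i, |dot (κ⁻¹ • J (x k)) (E v i)| = if cls i = k then 0 else N i := by
        intro i
        rw [← h_dot, hE', h_smul, abs_mul, abs_mul, hsabs, one_mul, abs_of_pos (hNpos i)]
        by_cases hc : cls i = k
        · rw [if_pos hc, hc, h_self, abs_zero, mul_zero]
        · rw [if_neg hc]
          rcases fin3_cases k (cls i) with h4 | h4 | h4
          · exact absurd h4 hc
          · rw [h4, h_succ]; simp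
          · rw [h4, h_succ2]; simp
      simp only [h3]
      have h5 : ∑ i, (if cls i = k then 0 else N i) = ∑ i, N i -
          ∑ i ∈ univ.filter (fun i => cls i = k), N i := by
        rw [Finset.sum_filter, ← Finset.sum_sub_distrib]
        apply Finset.sum_congr rfl
        intro i _
        by_cases hc : cls i = k
        · rw [if_pos hc, if_pos hc, sub_self]
        · rw [if_neg hc, if_neg hc, sub_zero]
      rw [h5, hS, ha]; norm_num
    have h6 := le_W v (κ⁻¹ • J (x k)) i j
    rw [h_dot, h_dot]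
    linarith
  -- extreme points of `h k`
  set M : Fin 3 → ℝ := fun k => h k (v (p (k + 1))) with hM
  have pM : ∀ k, h k (v (p (k + 1))) = M k := fun k => rfl
  have qm : ∀ k, h k (v (q (k + 1))) = M k - 1 := by
    intro k
    have := h_succ k
    rw [hx] at this; simp only at this
    rw [h_sub] at this; rw [← pM]; linarith
  have hup : ∀ k i, h k (v i) ≤ M k := by
    intro k i
    have := h_W k i (q (k + 1)); rw [qm] at this; linarith
  have hlo : ∀ k i, M k - 1 ≤ h k (v i) := by
    intro k i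
    have := h_W k (p (k + 1)) i; rw [pM] at this; linarith
  have qM : ∀ k, h k (v (q (k + 1 + 1))) = M k := by
    intro k
    have := h_succ2 k
    rw [hx] at this; simp only at this
    rw [h_sub] at this
    have h1 := hup k (q (k + 1 + 1))
    have h2 := hlo k (p (k + 1 + 1))
    linarith
  have pm : ∀ k, h k (v (p (k + 1 + 1))) = M k - 1 := by
    intro k
    have := h_succ2 k
    rw [hx] at this; simp only at this
    rw [h_sub] at this
    have h1 := qM k
    linarith
  have hM1 : ∀ k, 1 ≤ M k + M (k + 1) + M (k + 1 + 1) := by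
    intro k
    have h1 := h_sum k (v (q (k + 1 + 1)))
    have h2 := qM k
    have h3 := qm (k + 1)
    have h4 := hup (k + 1 + 1) (q (k + 1 + 1))
    linarith
  have hM2 : ∀ k, M k + M (k + 1) + M (k + 1 + 1) ≤ 2 := by
    intro k
    have h1 := h_sum k (v (p (k + 1 + 1)))
    have h2 := pm k
    have h3 := pM (k + 1)
    have h4 := hlo (k + 1 + 1) (p (k + 1 + 1))
    linarith
  -- a point extreme for two of the functionals
  have hcorner : ∀ k i, (h k (v i) = M k ∨ h k (v i) = M k - 1) →
      (h (k + 1) (v i) = M (k + 1) ∨ h (k + 1) (v i) = M (k + 1) - 1) →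
      ∃ j, v i = v (p j) ∨ v i = v (q j) := by
    intro k i h1 h2
    rcases h1 with h1 | h1 <;> rcases h2 with h2 | h2
    · -- both max
      have h3 := h_sum k (v i)
      have h4 := hlo (k + 1 + 1) i
      have h5 := hM1 k
      refine ⟨k + 1 + 1 + 1, Or.inr ?_⟩
      apply h_ext (k + 1)
      · rw [h2, qM]
      · rw [qm]; linarith
    · refine ⟨k + 1 + 1, Or.inr ?_⟩
      apply h_ext k
      · rw [h1, qM]
      · rw [h2, qm]
    · refine ⟨k + 1 + 1, Or.inl ?_⟩
      apply h_ext k
      · rw [h1, pm]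
      · rw [h2, pM]
    · have h3 := h_sum k (v i)
      have h4 := hup (k + 1 + 1) i
      have h5 := hM2 k
      refine ⟨k + 1 + 1 + 1, Or.inl ?_⟩
      apply h_ext (k + 1)
      · rw [h2, pm]
      · rw [pM]; linarith
  -- an endpoint of an edge of class `k` is extreme for `h k`
  have hedge : ∀ i, (h (cls i) (v i) = M (cls i) ∨ h (cls i) (v i) = M (cls i) - 1) := by
    intro i
    have hcrnn : ∀ j, 0 ≤ cr (E v i) (v j - v i) := by
      intro j
      by_cases hj1 : j = i
      · rw [hj1]; simp [cr]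
      · by_cases hj2 : j = i + 1
        · rw [hj2]; simp only [E, cr]; apply le_of_eq; ring
        · exact (H i j hj1 hj2).le
    have h1 : ∀ j, 0 ≤ (s i * N i) * κ * (h (cls i) (v j) - h (cls i) (v i)) := by
      intro j
      have := hcrnn j
      rw [hE', smul_cr] at this
      rw [← h_sub]
      simp only [hh]
      have e : s i * N i * κ * (cr (x (cls i)) (v j - v i) / κ) =
          s i * N i * cr (x (cls i)) (v j - v i) := by
        field_simp
      rw [e]; exact this
    have hne : (s i * N i) * κ ≠ 0 := by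
      apply mul_ne_zero (mul_ne_zero _ (hNpos i).ne') hκ0
      rcases hs1 i with h2 | h2 <;> rw [h2] <;> norm_num
    rcases lt_or_gt_of_ne hne with h2 | h2
    · left
      apply le_antisymm (hup _ _)
      have h3 := h1 (p (cls i + 1))
      rw [pM] at h3
      nlinarith
    · right
      apply le_antisymm _ (hlo _ _)
      have h3 := h1 (q (cls i + 1))
      rw [qm] at h3
      nlinarith
  have hedge' : ∀ i, (h (cls i) (v (i + 1)) = M (cls i) ∨
      h (cls i) (v (i + 1)) = M (cls i) - 1) := by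
    intro i
    have : h (cls i) (v (i + 1)) = h (cls i) (v i) := by
      have h1 : h (cls i) (E v i) = 0 := by rw [hE', h_smul, h_self, mul_zero]
      simp only [E] at h1
      rw [h_sub] at h1; linarith
    rw [this]; exact hedge i
  have hcls : ∀ i, cls i ≠ cls (i + 1) := by
    intro i h0
    have hc := cr_E_succ hm H i
    rw [hE', hE' (i + 1), ← h0, smul_cr, cr_smul, cr_self] at hc
    simp at hc
  have hvert : ∀ i, ∃ j, v (i + 1) = v (p j) ∨ v (i + 1) = v (q j) := by
    intro i
    have h1 := hedge' i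
    have h2 := hedge (i + 1)
    rcases fin3_cases (cls i) (cls (i + 1)) with h3 | h3 | h3
    · exact absurd h3.symm (hcls i)
    · rw [h3] at h2
      exact hcorner _ _ h1 h2
    · have h4 : cls i = cls (i + 1) + 1 := by rw [h3, fin3]
      rw [h4] at h1
      exact hcorner _ _ h2 h1
  have hvert' : ∀ i, ∃ j, v i = v (p j) ∨ v i = v (q j) := by
    intro i
    have := hvert (i - 1)
    rwa [sub_add_cancel] at this
  -- explicit data
  set S : ℝ := M 0 + M 1 + M 2 with hSdef
  have hS1 : 1 ≤ S := hM1 0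
  have hS2 : S ≤ 2 := hM2 0
  have hS0 : S ≠ 0 := by linarith
  set A : ℝ × ℝ := v (p 2) - (S - 1) • x 1 with hA
  set C : ℝ × ℝ := A + S • x 1 with hC
  set B : ℝ × ℝ := C + S • x 0 with hB
  -- values
  have v00 : h 0 (x 0) = 0 := h_self 0
  have v01 : h 0 (x 1) = 1 := h_succ 0
  have v02 : h 0 (x 2) = -1 := h_succ2 0
  have v11 : h 1 (x 1) = 0 := h_self 1
  have v12 : h 1 (x 2) = 1 := h_succ 1
  have v10 : h 1 (x 0) = -1 := h_succ2 1
  have w01 : h 0 (v (p 1)) = M 0 := pM 0
  have w02 : h 0 (v (q 2)) = M 0 := qM 0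
  have w03 : h 0 (v (q 1)) = M 0 - 1 := qm 0
  have w04 : h 0 (v (p 2)) = M 0 - 1 := pm 0
  have w11 : h 1 (v (p 2)) = M 1 := pM 1
  have w12 : h 1 (v (q 0)) = M 1 := qM 1
  have w13 : h 1 (v (q 2)) = M 1 - 1 := qm 1
  have w14 : h 1 (v (p 0)) = M 1 - 1 := pm 1
  have w21 : h 2 (v (p 0)) = M 2 := pM 2
  have w22 : h 2 (v (q 1)) = M 2 := qM 2
  have w23 : h 2 (v (q 0)) = M 2 - 1 := qm 2
  have w24 : h 2 (v (p 1)) = M 2 - 1 := pm 2
  have s3 : ∀ u, h 0 u + h 1 u + h 2 u = 0 := fun u => h_sum 0 u
  have hA0 : h 0 A = M 0 - S := by rw [hA, h_sub, h_smul, v01, w04]; ring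
  have hA1 : h 1 A = M 1 := by rw [hA, h_sub, h_smul, v11, w11]; ring
  have hC0 : h 0 C = M 0 := by rw [hC, h_add, h_smul, v01, hA0]; ring
  have hC1 : h 1 C = M 1 := by rw [hC, h_add, h_smul, v11, hA1]; ring
  have hB0 : h 0 B = M 0 := by rw [hB, h_add, h_smul, v00, hC0]; ring
  have hB1 : h 1 B = M 1 - S := by rw [hB, h_add, h_smul, v10, hC1]; ring
  have hcomb : ∀ k (P Q : ℝ × ℝ), h k (P + ((S - 1) / S) • (Q - P)) =
      h k P + ((S - 1) / S) * (h k Q - h k P) := by
    intro k P Q; rw [h_add, h_smul, h_sub]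
  have r1 : A + ((S - 1) / S) • (B - A) = v (q 1) := by
    apply h_ext 0
    · rw [hcomb, hA0, hB0, w03]; field_simp; ring
    · change h 1 _ = h 1 _
      have := s3 (v (q 1))
      rw [hcomb, hA1, hB1]
      have e : h 1 (v (q 1)) = 1 - M 0 - M 2 := by linarith
      rw [e]; field_simp; rw [hSdef]; ring
  have r2 : A + ((S - 1) / S) • (C - A) = v (p 2) := by
    apply h_ext 0
    · rw [hcomb, hA0, hC0, w04]; field_simp; ring
    · change h 1 _ = h 1 _
      rw [hcomb, hA1, hC1, w11]; ring
  have r3 : B + ((S - 1) / S) • (A - B) = v (p 0) := by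
    apply h_ext 0
    · have := s3 (v (p 0))
      rw [hcomb, hA0, hB0]
      have e : h 0 (v (p 0)) = 1 - M 1 - M 2 := by linarith
      rw [e]; field_simp; rw [hSdef]; ring
    · change h 1 _ = h 1 _
      rw [hcomb, hA1, hB1, w14]; field_simp; ring
  have r4 : B + ((S - 1) / S) • (C - B) = v (q 2) := by
    apply h_ext 0
    · rw [hcomb, hB0, hC0, w02]; ring
    · change h 1 _ = h 1 _
      rw [hcomb, hB1, hC1, w13]; field_simp; ring
  have r5 : C + ((S - 1) / S) • (A - C) = v (q 0) := by
    apply h_ext 0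
    · have := s3 (v (q 0))
      rw [hcomb, hA0, hC0]
      have e : h 0 (v (q 0)) = 1 - M 1 - M 2 := by linarith
      rw [e]; field_simp; rw [hSdef]; ring
    · change h 1 _ = h 1 _
      rw [hcomb, hA1, hC1, w12]; ring
  have r6 : C + ((S - 1) / S) • (B - C) = v (p 1) := by
    apply h_ext 0
    · rw [hcomb, hB0, hC0, w01]; ring
    · change h 1 _ = h 1 _
      have := s3 (v (p 1))
      rw [hcomb, hB1, hC1]
      have e : h 1 (v (p 1)) = 1 - M 0 - M 2 := by linarith
      rw [e]; field_simp; rw [hSdef]; ring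
  refine ⟨A, B, C, ?_, (S - 1) / S, ?_, ?_, ?_⟩
  · rw [affineIndependent_iff_not_collinear_set]
    intro hcol
    rw [collinear_iff_of_mem (p₀ := A) (by simp)] at hcol
    obtain ⟨w, hw⟩ := hcol
    obtain ⟨a, ha'⟩ := hw B (by simp)
    obtain ⟨c, hc'⟩ := hw C (by simp)
    have e1 : h 0 B = a * h 0 w + h 0 A := by rw [ha', vadd_eq_add, h_add, h_smul]
    have e2 : h 1 B = a * h 1 w + h 1 A := by rw [ha', vadd_eq_add, h_add, h_smul]
    have e3 : h 0 C = c * h 0 w + h 0 A := by rw [hc', vadd_eq_add, h_add, h_smul]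
    have e4 : h 1 C = c * h 1 w + h 1 A := by rw [hc', vadd_eq_add, h_add, h_smul]
    rw [hB0, hA0] at e1
    rw [hB1, hA1] at e2
    rw [hC0, hA0] at e3
    rw [hC1, hA1] at e4
    have e5 : S = c * h 0 w := by linarith
    have e6 : c * h 1 w = 0 := by linarith
    have e7 : a * h 1 w = -S := by linarith
    have hc0 : c ≠ 0 := by rintro rfl; apply hS0; rw [e5]; ring
    have e8 : h 1 w = 0 := (mul_eq_zero.1 e6).resolve_left hc0
    rw [e8, mul_zero] at e7
    apply hS0; linarith
  · apply div_nonneg <;> linarith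
  · rw [div_le_div_iff₀ (by linarith) (by norm_num)]; linarith
  · rw [r1, r2, r3, r4, r5, r6]
    apply le_antisymm
    · apply convexHull_mono
      rintro _ ⟨i, rfl⟩
      obtain ⟨j, hj⟩ := hvert' i
      rcases hj with hj | hj <;> rw [hj] <;> fin_cases j <;> simp
    · apply convexHull_mono
      intro u hu
      simp only [Set.mem_insert_iff, Set.mem_singleton_iff] at hu
      rcases hu with rfl | rfl | rfl | rfl | rfl | rfl <;> exact Set.mem_range_self _

end Pool.Agent.H10R2.SideChord
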